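import Mathlib

open Topology Filter Set

namespace Pool.Agent.Work.MP_e6b6d5_an

/-- The forward orbit closure of a point. -/
def orbitClosure {X : Type*} [TopologicalSpace X] (T : X → X) (x : X) : Set X :=
  closure (Set.range fun n : ℕ => T^[n] x)

/-- `A` is a minimal set of `T`: closed, nonempty, invariant, and with no proper nonempty closed
invariant subset. -/
def IsMinimalSet {X : Type*} [TopologicalSpace X] (T : X → X) (A : Set X) : Prop :=
  IsClosed A ∧ A.Nonempty ∧ Set.MapsTo T A A ∧
    ∀ B ⊆ A, IsClosed B → B.Nonempty → Set.MapsTo T B B → B = A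

/-- `x` is a minimal point: its orbit closure is a minimal set. -/
def IsMinimalPoint {X : Type*} [TopologicalSpace X] (T : X → X) (x : X) : Prop :=
  IsMinimalSet T (orbitClosure T x)

/-- The system is minimal. -/
def IsMinimalSystem {X : Type*} [TopologicalSpace X] (T : X → X) : Prop :=
  IsMinimalSet T Set.univ

/-- `J` is a joining of `(X, T)` and `(Y, S)`. -/
structure IsJoining {X Y : Type*} [TopologicalSpace X] [TopologicalSpace Y]
    (T : X → X) (S : Y → Y) (J : Set (X × Y)) : Prop where
  nonempty : J.Nonempty
  closed : IsClosed J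
  invariant : ∀ p ∈ J, (T p.1, S p.2) ∈ J
  fst_onto : ∀ x, ∃ y, (x, y) ∈ J
  snd_onto : ∀ y, ∃ x, (x, y) ∈ J

/-- `(X, T)` is disjoint from every minimal system (on compact metric spaces in the universe
`v`). -/
def DisjointFromAllMinimal.{v, u} {X : Type u} [TopologicalSpace X] (T : X → X) : Prop :=
  ∀ (Y : Type v) [MetricSpace Y] [CompactSpace Y] (S : Y → Y), Continuous S →
    Function.Surjective S → IsMinimalSystem S → ∀ J : Set (X × Y), IsJoining T S J → J = Set.univ

/-- The subsystem on the orbit closure of `x` has dense minimal points. -/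
def HasDenseMinimalPoints {X : Type*} [TopologicalSpace X] (T : X → X) (x : X) : Prop :=
  orbitClosure T x ⊆ closure {y | y ∈ orbitClosure T x ∧ IsMinimalPoint T y}

end Pool.Agent.Work.MP_e6b6d5_an
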