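import Pool.Agent.Work.MP_e6b6d5_an.Space

open Topology Filter Set
open scoped Pointwise

namespace Pool.Agent.Work.MP_e6b6d5_an

/-- Gap condition on a state. -/
def Gap (st : Finset ℤ × ℕ) (g : ℕ) : Prop := ∀ f ∈ st.1, ∀ f' ∈ st.1, f - f' + g ≤ st.2

theorem Gap_active {p : ℕ} {C : ℤ → Bool} {st : Finset ℤ × ℕ} {g : ℕ} (h : Gap st g)
    (ha : Active p C st) : Gap (upd p C st) (g + 1) := by
  unfold upd
  rw [if_pos ha]
  intro f hf f' hf'
  obtain ⟨a, haw, b, hb, rfl⟩ := Finset.mem_add.1 hf
  obtain ⟨a', haw', b', hb', rfl⟩ := Finset.mem_add.1 hf'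
  have h1 := h b hb b' hb'
  have h2 := abs_le.1 (mem_win.1 haw).1
  have h3 := abs_le.1 (mem_win.1 haw').1
  push_cast
  omega

theorem Gap_upd {p : ℕ} {C : ℤ → Bool} {st : Finset ℤ × ℕ} {g : ℕ} (h : Gap st g) :
    Gap (upd p C st) g := by
  by_cases ha : Active p C st
  · have h1 := Gap_active h ha
    intro f hf f' hf'
    have := h1 f hf f' hf'
    push_cast at this
    omega
  · unfold upd
    rw [if_neg ha]
    exact h

theorem Gap_mono {c : ℕ → ℤ → Bool} {p q : ℕ} (hpq : p ≤ q) {g : ℕ} (h : Gap (state c p) g) :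
    Gap (state c q) g := by
  induction q, hpq using Nat.le_induction with
  | base => exact h
  | succ q _ ih => exact Gap_upd ih

theorem exists_gap {c : ℕ → ℤ → Bool} (hc : ∀ k, ∃ p, k ≤ p ∧ Active p (c p) (state c p)) (g : ℕ) :
    ∃ p, Gap (state c p) g := by
  induction g with
  | zero =>
    refine ⟨0, ?_⟩
    intro f hf f' hf'
    simp only [state, Finset.mem_singleton] at hf hf' ⊢
    subst hf; subst hf'
    simp
  | succ g ih =>
    obtain ⟨p, hp⟩ := ih
    obtain ⟨q, hq, hact⟩ := hc p
    exact ⟨q + 1, Gap_active (Gap_mono hq hp) hact⟩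

theorem state_nonempty (c : ℕ → ℤ → Bool) (p : ℕ) : (state c p).1.Nonempty := by
  induction p with
  | zero => exact ⟨0, by simp [state]⟩
  | succ p ih =>
    change (upd p (c p) (state c p)).1.Nonempty
    unfold upd
    split_ifs with h
    · exact h.1.add ih
    · exact ih

/-- Nonzero points of `K st` have long runs of zeros. -/
theorem zero_run {st : Finset ℤ × ℕ} {m : ℕ} (hg : Gap st (2 * m + 2)) {x : ℤ → Bool}
    (hx : x ∈ K st) (hx0 : ∃ t, x t = true) : ∃ k : ℤ, ∀ t : ℤ, |t| ≤ m → sh k x t = false := by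
  obtain ⟨S, hS, rfl⟩ := hx
  obtain ⟨t₀, ht₀⟩ := hx0
  obtain ⟨f₀, hf₀, hs⟩ := plus_true.1 ht₀
  have hne : st.1.Nonempty := ⟨f₀, hf₀⟩
  set s := t₀ - f₀ with hs_def
  set b := st.1.max' hne with hb
  refine ⟨s + b + m + 1, fun t ht => ?_⟩
  rw [← Bool.not_eq_true]
  intro h
  change plus st.1 S (t + (s + b + m + 1)) = true at h
  obtain ⟨f, hf, hS'⟩ := plus_true.1 h
  have hfb : f ≤ b := st.1.le_max' f hf
  have ht' := abs_le.1 ht
  have hgap := hg b (st.1.max'_mem hne) f hf
  push_cast at hgap
  by_cases heq : t + (s + b + m + 1) - f = s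
  · omega
  · have h1 := hS _ _ hS' hs heq
    rcases le_abs.1 h1 with h2 | h2 <;> omega

/-- The zero configuration. -/
def zeroC : ℤ → Bool := fun _ => false

/-- Good parameters (infinitely many activations). -/
def Inf (c : ℕ → ℤ → Bool) : Prop := ∀ k, ∃ p, k ≤ p ∧ Active p (c p) (state c p)

theorem T2 : T2Space XX := inferInstance

/-- Minimal points over good parameters are zero. -/
theorem minimal_zero (y : XX) (hc : Inf y.1.2) (hy : IsMinimalPoint (TT : XX → XX) y) :
    y.1.1 = zeroC := by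
  by_contra hne
  have hne' : ∃ t, y.1.1 t = true := by
    by_contra hcon
    push Not at hcon
    apply hne
    funext t
    simpa [zeroC] using hcon t
  have hcs : CompactSpace XX := isCompact_iff_compactSpace.1 isClosed_XX.isCompact
  obtain ⟨hAc, hAne, hAinv, hAmin⟩ := hy
  set A := orbitClosure (TT : XX → XX) y with hA
  have hyA : y ∈ A := subset_closure ⟨0, rfl⟩
  -- `A` is fully invariant
  have himg : TT '' A = A := by
    refine hAmin _ ?_ ?_ ?_ ?_
    · rintro _ ⟨a, ha, rfl⟩; exact hAinv ha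
    · exact (hAc.isCompact.image TT.continuous).isClosed
    · exact hAne.image _
    · rintro _ ⟨a, ha, rfl⟩; exact ⟨TT a, hAinv ha, rfl⟩
  have hback : ∀ a ∈ A, TT.symm a ∈ A := by
    intro a ha
    rw [← himg] at ha
    obtain ⟨b, hb, rfl⟩ := ha
    simpa using hb
  -- all shifts of `y` belong to `A`
  have hshift : ∀ k : ℤ, ∃ a ∈ A, a.1 = (sh k y.1.1, y.1.2) := by
    intro k
    induction k using Int.induction_on with
    | zero => exact ⟨y, hyA, by rw [sh_zero]⟩
    | succ k ih =>
      obtain ⟨a, ha, hak⟩ := ih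
      refine ⟨TT a, hAinv ha, ?_⟩
      rw [TT_val, hak, sh_sh, add_comm]
    | pred k ih =>
      obtain ⟨a, ha, hak⟩ := ih
      refine ⟨TT.symm a, hback a ha, ?_⟩
      have h1 : (TT (TT.symm a)).1 = a.1 := by rw [TT.apply_symm_apply]
      rw [TT_val, hak, Prod.mk.injEq] at h1
      have h2 : (TT.symm a).1.1 = sh (-(k : ℤ) - 1) y.1.1 := by
        have h3 : sh (-1) (sh 1 (TT.symm a).1.1) = (TT.symm a).1.1 := by
          rw [sh_sh]; simp [sh_zero]
        rw [← h3, h1.1, sh_sh]
        congr 1
        ring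
      exact Prod.ext h2 h1.2
  -- long runs of zeros
  have hrun : ∀ m : ℕ, ∃ a ∈ A, a.1.2 = y.1.2 ∧ ∀ t : ℤ, |t| ≤ m → a.1.1 t = false := by
    intro m
    obtain ⟨p, hp⟩ := exists_gap hc (2 * m + 2)
    obtain ⟨k, hk⟩ := zero_run hp (y.2 p) hne'
    obtain ⟨a, ha, hak⟩ := hshift k
    refine ⟨a, ha, by rw [hak], fun t ht => ?_⟩
    rw [hak]
    exact hk t ht
  choose a haA ha2 ha0 using hrun
  have hlim : Tendsto (fun m => (a m).1) atTop (𝓝 (zeroC, y.1.2)) := by
    have h1 : Tendsto (fun m => (a m).1.1) atTop (𝓝 zeroC) := by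
      refine tendsto_of_eventually_apply fun t => ?_
      filter_upwards [eventually_ge_atTop t.natAbs] with m hm
      have h7 : |t| = (t.natAbs : ℤ) := Int.abs_eq_natAbs t
      exact ha0 m t (by omega)
    have h2 : Tendsto (fun m => (a m).1.2) atTop (𝓝 y.1.2) := by
      simp_rw [ha2]
      exact tendsto_const_nhds
    exact h1.prodMk_nhds h2
  have hzX : (zeroC, y.1.2) ∈ XX :=
    isClosed_XX.mem_of_tendsto hlim (Eventually.of_forall fun m => (a m).2)
  set o : XX := ⟨(zeroC, y.1.2), hzX⟩ with ho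
  have hoA : o ∈ A := by
    refine hAc.mem_of_tendsto (f := a) (b := atTop) ?_ (Eventually.of_forall haA)
    exact tendsto_subtype_rng.2 hlim
  have hfix : TT o = o := by
    apply Subtype.ext
    rw [TT_val]
    rfl
  have hsing : ({o} : Set XX) = A := by
    refine hAmin _ (by simpa using hoA) isClosed_singleton ⟨o, rfl⟩ ?_
    rintro _ rfl
    exact hfix
  have hyo : y = o := by
    rw [← hsing] at hyA
    exact hyA
  apply hne
  rw [hyo]

/-- Nonzero points over good parameters do not have dense minimal points in their orbit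
closure. -/
theorem not_dense (q : XX) (hc : Inf q.1.2) (hq : q.1.1 ≠ zeroC) :
    ¬ HasDenseMinimalPoints (TT : XX → XX) q := by
  intro h
  have hsnd : ∀ y ∈ orbitClosure (TT : XX → XX) q, y.1.2 = q.1.2 := by
    intro y hy
    have hcl : IsClosed {y : XX | y.1.2 = q.1.2} :=
      isClosed_eq (continuous_snd.comp continuous_subtype_val) continuous_const
    refine closure_minimal ?_ hcl hy
    rintro _ ⟨k, rfl⟩
    change (TT^[k] q).1.2 = q.1.2
    rw [TT_iterate]
  have hsub : {y | y ∈ orbitClosure (TT : XX → XX) q ∧ IsMinimalPoint (TT : XX → XX) y} ⊆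
      {y : XX | y.1.1 = zeroC} := by
    rintro y ⟨hy1, hy2⟩
    refine minimal_zero y ?_ hy2
    rw [hsnd y hy1]
    exact hc
  have hcl : IsClosed {y : XX | y.1.1 = zeroC} :=
    isClosed_eq (continuous_fst.comp continuous_subtype_val) continuous_const
  have hqmem : q ∈ orbitClosure (TT : XX → XX) q := subset_closure ⟨0, rfl⟩
  exact hq (closure_minimal hsub hcl (h hqmem))

/-! ### Genericity -/

/-- Points with an activation after time `k` and nonzero first coordinate. -/
def Ok (k : ℕ) : Set XX :=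
  {q | (∃ p, k ≤ p ∧ Active p (q.1.2 p) (state q.1.2 p)) ∧ q.1.1 ≠ zeroC}

theorem isOpen_Ok (k : ℕ) : IsOpen (Ok k) := by
  rw [isOpen_iff_eventually]
  rintro q ⟨⟨p, hkp, hact⟩, hq0⟩
  have hc2 : Tendsto (fun q' : XX => q'.1.2) (𝓝 q) (𝓝 q.1.2) :=
    (continuous_snd.comp continuous_subtype_val).tendsto q
  have hc1 : Tendsto (fun q' : XX => q'.1.1) (𝓝 q) (𝓝 q.1.1) :=
    (continuous_fst.comp continuous_subtype_val).tendsto q
  have h1 := hc2.eventually (eventually_state q.1.2 p)
  have h2 := hc2.eventually (eventually_win q.1.2 p)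
  have h3 := hc1.eventually_ne hq0
  filter_upwards [h1, h2, h3] with q' h1 h2 h3
  refine ⟨⟨p, hkp, ?_⟩, h3⟩
  unfold Active
  rw [h1, h2]
  exact hact

theorem D_ind_singleton (n : ℕ) (a : ℤ) : ind {a} ∈ D n := by
  intro s t hs ht hst
  rw [ind_true, Finset.mem_singleton] at hs ht
  exact absurd (hs.trans ht.symm) hst

theorem plus_ind_zero (A : Finset ℤ) : plus A (ind {0}) = ind A := by
  funext t
  rw [Bool.eq_iff_iff, plus_true, ind_true]
  constructor
  · rintro ⟨f, hf, h⟩
    rw [ind_true, Finset.mem_singleton] at h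
    have : t = f := by omega
    rwa [this]
  · intro ht
    exact ⟨t, ht, by rw [ind_true]; simp⟩

/-- Approximation of a node point by active points. -/
theorem node_approx (k i : ℕ) (x : ℤ → Bool) (c : ℕ → ℤ → Bool) (hx : x ∈ K (state c i))
    (h : (x, trc i c) ∈ XX) : (⟨_, h⟩ : XX) ∈ closure (Ok k) := by
  classical
  obtain ⟨S, hS, hSx⟩ := hx
  set F := (state c i).1 with hF
  set n := (state c i).2 with hn
  have hFne : F.Nonempty := state_nonempty c i
  -- approximants of `S`
  let CC : ℕ → ℤ → Bool := fun P => if ∃ t, trunc P S t = true then trunc P S else ind {(P : ℤ)}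
  have hCCD : ∀ P, CC P ∈ D n := by
    intro P
    simp only [CC]
    split_ifs
    · exact D_trunc n P S hS
    · exact D_ind_singleton n P
  have hCCwin : ∀ P, ind (win P (CC P)) = CC P := by
    intro P
    funext t
    rw [Bool.eq_iff_iff, ind_true, mem_win]
    constructor
    · exact fun h => h.2
    · intro h
      refine ⟨?_, h⟩
      simp only [CC] at h
      split_ifs at h
      · exact (trunc_true.1 h).2
      · rw [ind_true, Finset.mem_singleton] at h
        subst h
        simp
  have hCCne : ∀ P, ∃ t, CC P t = true := by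
    intro P
    by_cases hP : ∃ t, trunc P S t = true
    · obtain ⟨t, ht⟩ := hP
      refine ⟨t, ?_⟩
      simp only [CC]
      rw [if_pos ⟨t, ht⟩]
      exact ht
    · refine ⟨P, ?_⟩
      simp only [CC]
      rw [if_neg hP, ind_true]
      simp
  have hCClim : Tendsto CC atTop (𝓝 S) := by
    refine tendsto_of_eventually_apply fun t => ?_
    by_cases hS0 : ∃ s, S s = true
    · obtain ⟨s, hs⟩ := hS0
      filter_upwards [eventually_ge_atTop (s.natAbs + t.natAbs)] with P hP
      have h7 : |s| = (s.natAbs : ℤ) := Int.abs_eq_natAbs s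
      have h8 : |t| = (t.natAbs : ℤ) := Int.abs_eq_natAbs t
      have h1 : ∃ t, trunc P S t = true := ⟨s, trunc_true.2 ⟨hs, by omega⟩⟩
      simp only [CC]
      rw [if_pos h1]
      have h2 : |t| ≤ P := by omega
      simp [trunc, h2]
    · push Not at hS0
      filter_upwards [eventually_gt_atTop t.natAbs] with P hP
      have h1 : ¬ ∃ t, trunc P S t = true := by
        rintro ⟨s, hs⟩
        exact hS0 s (trunc_true.1 hs).1
      simp only [CC]
      rw [if_neg h1]
      have h2 : S t = false := by simpa using hS0 t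
      rw [h2]
      have h3 : t ≠ (P : ℤ) := by omega
      simp [ind, h3]
  let c' : ℕ → ℕ → ℤ → Bool := fun P => Function.update (trc i c) P (CC P)
  have hstP : ∀ P, i ≤ P → state (c' P) P = (F, n) := by
    intro P hP
    have h1 : state (c' P) P = state (trc i c) P :=
      state_congr P fun j hj => by
        simp only [c']
        rw [Function.update_of_ne (by omega)]
    rw [h1, state_const i (fun p hp => trc_of_ge c hp) P hP, state_trc]
  have hact : ∀ P, i ≤ P → Active P (c' P P) (state (c' P) P) := by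
    intro P hP
    rw [hstP P hP]
    have h1 : c' P P = CC P := by simp [c']
    rw [h1]
    refine ⟨?_, ?_⟩
    · obtain ⟨t, ht⟩ := hCCne P
      refine ⟨t, ?_⟩
      rw [← hCCwin P, ind_true] at ht
      exact ht
    · rw [hCCwin]
      exact hCCD P
  have hmem : ∀ P, i ≤ P → (plus F (CC P), c' P) ∈ XX := by
    intro P hP
    refine mem_XX_of (P + 1) ?_ ?_
    · intro p hp
      simp only [c']
      rw [Function.update_of_ne (by omega)]
      exact trc_of_ge c (by omega)
    · have h1 : state (c' P) (P + 1) = (win P (CC P) + F, n + 2 * P + 1) := by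
        change upd P (c' P P) (state (c' P) P) = _
        unfold upd
        rw [if_pos (hact P hP), hstP P hP]
        simp [c']
      rw [h1]
      refine ⟨ind {0}, D_ind_singleton _ 0, ?_⟩
      change plus (win P (CC P) + F) (ind {0}) = plus F (CC P)
      rw [plus_add, plus_ind_zero, hCCwin]
  have hOk : ∀ P, ∀ hP : i ≤ P, k ≤ P → (⟨_, hmem P hP⟩ : XX) ∈ Ok k := by
    intro P hP hkP
    refine ⟨⟨P, hkP, hact P hP⟩, ?_⟩
    intro h0
    obtain ⟨t, ht⟩ := hCCne P
    obtain ⟨f, hf⟩ := hFne
    have h1 : plus F (CC P) (t + f) = true := by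
      rw [plus_true]
      refine ⟨f, hf, ?_⟩
      have : t + f - f = t := by ring
      rwa [this]
    have h2 := congrFun h0 (t + f)
    change plus F (CC P) (t + f) = false at h2
    rw [h1] at h2
    exact absurd h2 (by simp)
  -- convergence
  have hlim1 : Tendsto (fun P => plus F (CC P)) atTop (𝓝 x) := by
    have h1 : plus F S = x := hSx
    rw [← h1]
    exact ((continuous_plus F).tendsto S).comp hCClim
  have hlim2 : Tendsto c' atTop (𝓝 (trc i c)) := by
    rw [tendsto_pi_nhds]
    intro p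
    refine tendsto_nhds_of_eventually_eq ?_
    filter_upwards [eventually_gt_atTop p] with P hP
    simp only [c']
    rw [Function.update_of_ne (by omega)]
  rw [mem_closure_iff_frequently]
  let u : ℕ → XX := fun P => if hP : i ≤ P then ⟨_, hmem P hP⟩ else ⟨_, h⟩
  have hu : Tendsto u atTop (𝓝 (⟨_, h⟩ : XX)) := by
    rw [tendsto_subtype_rng]
    refine (hlim1.prodMk_nhds hlim2).congr' ?_
    filter_upwards [eventually_ge_atTop i] with P hP
    simp only [u]
    rw [dif_pos hP]
  refine hu.frequently (Eventually.frequently ?_)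
  filter_upwards [eventually_ge_atTop i, eventually_ge_atTop k] with P hP hk
  simp only [u]
  rw [dif_pos hP]
  exact hOk P hP hk

theorem dense_Ok (k : ℕ) : Dense (Ok k) := by
  rintro ⟨⟨x, c⟩, hxc⟩
  have h1 : ∀ i, (⟨_, trc_mem i (hxc i)⟩ : XX) ∈ closure (Ok k) := fun i =>
    node_approx k i x c (hxc i) _
  refine isClosed_closure.mem_of_tendsto (f := fun i => (⟨_, trc_mem i (hxc i)⟩ : XX))
    (b := atTop) ?_ (Eventually.of_forall h1)
  rw [tendsto_subtype_rng]
  exact tendsto_const_nhds.prodMk_nhds (tendsto_trc c)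

theorem generic_bad : ∃ Ω : Set XX, IsGδ Ω ∧ Dense Ω ∧
    ∀ q ∈ Ω, ¬ HasDenseMinimalPoints (TT : XX → XX) q := by
  have hcs : CompactSpace XX := isCompact_iff_compactSpace.1 isClosed_XX.isCompact
  refine ⟨⋂ k, Ok k, IsGδ.iInter_of_isOpen isOpen_Ok, dense_iInter_of_isOpen_nat isOpen_Ok
    dense_Ok, ?_⟩
  intro q hq
  rw [Set.mem_iInter] at hq
  exact not_dense q (fun k => (hq k).1) (hq 0).2

end Pool.Agent.Work.MP_e6b6d5_an
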