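import Pool.Agent.Work.MP_e6b6d5_an.Defs
import Pool.Agent.Work.MP_80a07b_an.Core

open Topology Filter Set

namespace Pool.Agent.Work.MP_e6b6d5_an

/-! ### Minimal components of powers of a minimal system -/

theorem exists_isMinimalSet {Z : Type*} [TopologicalSpace Z] [CompactSpace Z] [T2Space Z]
    [Nonempty Z] (R : Z → Z) : ∃ A : Set Z, IsMinimalSet R A := by
  obtain ⟨M, -, hc, hne, hinv, hmin⟩ := Pool.Agent.Work.MP_80a07b_an.exists_minimal
    (Set.univ : Set Z) isCompact_univ Set.univ_nonempty (fun _ : Unit => R)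
    (fun _ => Set.mapsTo_univ _ _)
  exact ⟨M, hc, hne, hinv (), fun B hB hBc hBne hBinv =>
    Set.Subset.antisymm hB (hmin B hB hBc hBne fun _ => hBinv)⟩

section components

variable {Z : Type*} [TopologicalSpace Z] [CompactSpace Z] [T2Space Z] {R : Z → Z}
  (hR : Continuous R) (hmin : IsMinimalSystem R) {d : ℕ} (hd : 0 < d) {Z₀ : Set Z}
  (hZ : IsMinimalSet (R^[d]) Z₀)

include hR hZ

theorem comp_closed (j : ℕ) : IsClosed (R^[j] '' Z₀) :=
  (hZ.1.isCompact.image (hR.iterate j)).isClosed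

omit [CompactSpace Z] [T2Space Z] in
theorem comp_minimal (j : ℕ) (B : Set Z) (hB : B ⊆ R^[j] '' Z₀) (hBc : IsClosed B)
    (hBne : B.Nonempty) (hBinv : Set.MapsTo (R^[d]) B B) : R^[j] '' Z₀ ⊆ B := by
  have h1 : Z₀ ∩ (R^[j]) ⁻¹' B = Z₀ := by
    refine hZ.2.2.2 _ Set.inter_subset_left (hZ.1.inter (hBc.preimage (hR.iterate j))) ?_ ?_
    · obtain ⟨b, hb⟩ := hBne
      obtain ⟨z, hz, rfl⟩ := hB hb
      exact ⟨z, hz, hb⟩
    · rintro z ⟨hz, hz2⟩
      refine ⟨hZ.2.2.1 hz, ?_⟩
      have h2 : R^[j] (R^[d] z) = R^[d] (R^[j] z) := by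
        rw [← Function.iterate_add_apply, ← Function.iterate_add_apply, add_comm]
      change R^[j] (R^[d] z) ∈ B
      rw [h2]
      exact hBinv hz2
  rintro _ ⟨z, hz, rfl⟩
  rw [← h1] at hz
  exact hz.2

include hmin hd

theorem comp_cover (z : Z) : ∃ j < d, z ∈ R^[j] '' Z₀ := by
  have h1 : (⋃ j ∈ Finset.range d, R^[j] '' Z₀) = Set.univ := by
    refine hmin.2.2.2 _ (Set.subset_univ _) ?_ ?_ ?_
    · exact isClosed_biUnion_finset fun j _ => comp_closed hR hZ j
    · obtain ⟨z, hz⟩ := hZ.2.1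
      exact ⟨z, Set.mem_biUnion (Finset.mem_coe.2 (Finset.mem_range.2 hd)) ⟨z, hz, rfl⟩⟩
    · intro z hz
      simp only [Set.mem_iUnion, Finset.mem_range] at hz ⊢
      obtain ⟨j, hj, w, hw, rfl⟩ := hz
      by_cases hjd : j + 1 < d
      · exact ⟨j + 1, hjd, w, hw, by rw [Function.iterate_succ_apply']⟩
      · have hjd' : j + 1 = d := by omega
        refine ⟨0, hd, R^[d] w, hZ.2.2.1 hw, ?_⟩
        rw [← hjd', Function.iterate_succ_apply']
        rfl
  have h2 : z ∈ (⋃ j ∈ Finset.range d, R^[j] '' Z₀) := by rw [h1]; trivial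
  simp only [Set.mem_iUnion, Finset.mem_range] at h2
  obtain ⟨j, hj, hz⟩ := h2
  exact ⟨j, hj, hz⟩

end components

/-! ### Separated configurations -/

/-- Shift by `k`. -/
def sh (k : ℤ) (x : ℤ → Bool) : ℤ → Bool := fun t => x (t + k)

theorem sh_sh (k l : ℤ) (x : ℤ → Bool) : sh k (sh l x) = sh (k + l) x := by
  funext t; simp only [sh]; congr 1; ring

theorem sh_zero (x : ℤ → Bool) : sh 0 x = x := by
  funext t; simp [sh]

theorem continuous_sh (k : ℤ) : Continuous (sh k) :=
  continuous_pi fun t => continuous_apply (t + k)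

theorem sh_iterate (k : ℕ) (x : ℤ → Bool) : (sh 1)^[k] x = sh k x := by
  induction k with
  | zero => simp [sh_zero]
  | succ k ih =>
    rw [Function.iterate_succ_apply', ih, sh_sh]
    congr 1
    push_cast
    ring

/-- `n`-separated configurations. -/
def D (n : ℕ) : Set (ℤ → Bool) :=
  {S | ∀ s t : ℤ, S s = true → S t = true → s ≠ t → (n : ℤ) ≤ |s - t|}

theorem isClosed_eval (s : ℤ) (b : Bool) : IsClosed {S : ℤ → Bool | S s = b} :=
  isClosed_eq (continuous_apply s) continuous_const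

theorem isOpen_eval (s : ℤ) (b : Bool) : IsOpen {S : ℤ → Bool | S s = b} := by
  have hc : Continuous (fun S : ℤ → Bool => S s) := continuous_apply s
  exact (isOpen_discrete ({b} : Set Bool)).preimage hc

theorem isClosed_D (n : ℕ) : IsClosed (D n) := by
  have : D n = ⋂ s : ℤ, ⋂ t : ℤ, {S : ℤ → Bool | S s = true → S t = true → s ≠ t →
      (n : ℤ) ≤ |s - t|} := by
    ext S; simp [D]
  rw [this]
  refine isClosed_iInter fun s => isClosed_iInter fun t => ?_
  by_cases h : s ≠ t → (n : ℤ) ≤ |s - t|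
  · have : {S : ℤ → Bool | S s = true → S t = true → s ≠ t → (n : ℤ) ≤ |s - t|} = Set.univ := by
      ext S; simp only [Set.mem_ofPred_eq, Set.mem_univ, iff_true]
      exact fun _ _ => h
    rw [this]
    exact isClosed_univ
  · have : {S : ℤ → Bool | S s = true → S t = true → s ≠ t → (n : ℤ) ≤ |s - t|} =
        {S : ℤ → Bool | S s = false} ∪ {S : ℤ → Bool | S t = false} := by
      ext S
      simp only [Set.mem_ofPred_eq, Set.mem_union]
      constructor
      · intro h1
        by_contra h2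
        push Not at h2
        simp only [ne_eq, Bool.not_eq_false] at h2
        exact h (h1 h2.1 h2.2)
      · rintro (h1 | h1) h2 h3
        · rw [h1] at h2; exact absurd h2 (by simp)
        · rw [h1] at h3; exact absurd h3 (by simp)
    rw [this]
    exact (isClosed_eval s false).union (isClosed_eval t false)

theorem D_sh (n : ℕ) (k : ℤ) (S : ℤ → Bool) (hS : S ∈ D n) : sh k S ∈ D n := by
  intro s t hs ht hst
  have := hS (s + k) (t + k) hs ht (by omega)
  have h2 : s + k - (t + k) = s - t := by ring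
  rwa [h2] at this

/-- Truncation of a configuration to a window. -/
def trunc (m : ℕ) (S : ℤ → Bool) : ℤ → Bool := fun t => S t && decide (|t| ≤ m)

theorem trunc_true {m : ℕ} {S : ℤ → Bool} {t : ℤ} :
    trunc m S t = true ↔ S t = true ∧ |t| ≤ m := by
  simp [trunc]

theorem D_trunc (n m : ℕ) (S : ℤ → Bool) (hS : S ∈ D n) : trunc m S ∈ D n := by
  intro s t hs ht hst
  exact hS s t (trunc_true.1 hs).1 (trunc_true.1 ht).1 hst

theorem tendsto_of_eventually_apply {u : ℕ → ℤ → Bool} {S : ℤ → Bool}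
    (h : ∀ t, ∀ᶠ m in atTop, u m t = S t) : Tendsto u atTop (𝓝 S) := by
  rw [tendsto_pi_nhds]
  intro t
  exact tendsto_nhds_of_eventually_eq (h t)

theorem tendsto_trunc (S : ℤ → Bool) : Tendsto (fun m => trunc m S) atTop (𝓝 S) := by
  refine tendsto_of_eventually_apply fun t => ?_
  filter_upwards [eventually_ge_atTop t.natAbs] with m hm
  have h7 : |t| = (t.natAbs : ℤ) := Int.abs_eq_natAbs t
  have : |t| ≤ m := by omega
  simp [trunc, this]

/-- Several far apart translates of a configuration. -/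
noncomputable def multi (S : ℤ → Bool) (N : ℤ) (k : ℕ) : ℤ → Bool := by
  classical exact fun t => decide (∃ i : ℕ, i ≤ k ∧ S (t - i * N) = true)

theorem multi_true {S : ℤ → Bool} {N : ℤ} {k : ℕ} {t : ℤ} :
    multi S N k t = true ↔ ∃ i ≤ k, S (t - (i : ℤ) * N) = true := by
  simp [multi]

theorem D_multi (n m k : ℕ) (N : ℤ) (S : ℤ → Bool) (hS : S ∈ D n)
    (hm : ∀ t, S t = true → |t| ≤ m) (hN : 2 * (m : ℤ) + n ≤ N) : multi S N k ∈ D n := by
  intro s t hs ht hst
  obtain ⟨i, -, hi⟩ := multi_true.1 hs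
  obtain ⟨j, -, hj⟩ := multi_true.1 ht
  by_cases hij : i = j
  · subst hij
    have := hS _ _ hi hj (by omega)
    have h2 : s - (i : ℤ) * N - (t - (i : ℤ) * N) = s - t := by ring
    rwa [h2] at this
  · have h1 := abs_le.1 (hm _ hi)
    have h2 := abs_le.1 (hm _ hj)
    have hN0 : 0 ≤ N := by omega
    rcases lt_or_gt_of_ne hij with h | h
    · have h3 : ((i : ℤ) + 1) * N ≤ j * N := mul_le_mul_of_nonneg_right (by omega) hN0
      have h4 : ((i : ℤ) + 1) * N = i * N + N := by ring
      rw [le_abs]; right; omega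
    · have h3 : ((j : ℤ) + 1) * N ≤ i * N := mul_le_mul_of_nonneg_right (by omega) hN0
      have h4 : ((j : ℤ) + 1) * N = j * N + N := by ring
      rw [le_abs]; left; omega

theorem sh_multi_apply (m k i : ℕ) (hik : i ≤ k) (N : ℤ) (S : ℤ → Bool)
    (hm : ∀ t, S t = true → |t| ≤ m) (t : ℤ) (hN : (m : ℤ) + |t| < N) :
    sh (i * N) (multi S N k) t = S t := by
  rw [Bool.eq_iff_iff]
  change multi S N k (t + i * N) = true ↔ _
  rw [multi_true]
  have hN0 : 0 ≤ N := by have := abs_nonneg t; omega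
  have ht1 := le_abs_self t
  have ht2 := neg_abs_le t
  constructor
  · rintro ⟨j, -, hj⟩
    by_cases hij : i = j
    · subst hij
      have h2 : t + (i : ℤ) * N - (i : ℤ) * N = t := by ring
      rwa [h2] at hj
    · exfalso
      have h1 := abs_le.1 (hm _ hj)
      rcases lt_or_gt_of_ne hij with h | h
      · have h3 : ((i : ℤ) + 1) * N ≤ j * N := mul_le_mul_of_nonneg_right (by omega) hN0
        have h4 : ((i : ℤ) + 1) * N = i * N + N := by ring
        omega
      · have h3 : ((j : ℤ) + 1) * N ≤ i * N := mul_le_mul_of_nonneg_right (by omega) hN0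
        have h4 : ((j : ℤ) + 1) * N = j * N + N := by ring
        omega
  · intro ht
    refine ⟨i, hik, ?_⟩
    have h2 : t + (i : ℤ) * N - (i : ℤ) * N = t := by ring
    rwa [h2]

/-- The periodization of a configuration. -/
noncomputable def per (S : ℤ → Bool) (d : ℤ) : ℤ → Bool := by
  classical exact fun t => decide (∃ k : ℤ, S (t - k * d) = true)

theorem per_true {S : ℤ → Bool} {d t : ℤ} :
    per S d t = true ↔ ∃ k : ℤ, S (t - k * d) = true := by
  simp [per]

theorem D_per (n m : ℕ) (d : ℤ) (S : ℤ → Bool) (hS : S ∈ D n)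
    (hm : ∀ t, S t = true → |t| ≤ m) (hd : 2 * (m : ℤ) + n ≤ d) : per S d ∈ D n := by
  intro s t hs ht hst
  obtain ⟨i, hi⟩ := per_true.1 hs
  obtain ⟨j, hj⟩ := per_true.1 ht
  have hd0 : 0 ≤ d := by omega
  by_cases hij : i = j
  · subst hij
    have := hS _ _ hi hj (by omega)
    have h2 : s - (i : ℤ) * d - (t - (i : ℤ) * d) = s - t := by ring
    rwa [h2] at this
  · have h1 := abs_le.1 (hm _ hi)
    have h2 := abs_le.1 (hm _ hj)
    rcases lt_or_gt_of_ne hij with h | h
    · have h3 : (i + 1) * d ≤ j * d := mul_le_mul_of_nonneg_right (by omega) hd0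
      have h4 : (i + 1) * d = i * d + d := by ring
      rw [le_abs]; right; omega
    · have h3 : (j + 1) * d ≤ i * d := mul_le_mul_of_nonneg_right (by omega) hd0
      have h4 : (j + 1) * d = j * d + d := by ring
      rw [le_abs]; left; omega

theorem sh_per (S : ℤ → Bool) (d : ℤ) : sh d (per S d) = per S d := by
  funext t
  rw [Bool.eq_iff_iff]
  change per S d (t + d) = true ↔ _
  rw [per_true, per_true]
  constructor
  · rintro ⟨k, hk⟩
    refine ⟨k - 1, ?_⟩
    have : t - (k - 1) * d = t + d - k * d := by ring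
    rwa [this]
  · rintro ⟨k, hk⟩
    refine ⟨k + 1, ?_⟩
    have : t + d - (k + 1) * d = t - k * d := by ring
    rwa [this]

theorem per_apply (m : ℕ) (d : ℤ) (S : ℤ → Bool)
    (hm : ∀ t, S t = true → |t| ≤ m) (t : ℤ) (hd : (m : ℤ) + |t| < d) : per S d t = S t := by
  rw [Bool.eq_iff_iff, per_true]
  have hd0 : 0 ≤ d := by have := abs_nonneg t; omega
  have ht1 := le_abs_self t
  have ht2 := neg_abs_le t
  constructor
  · rintro ⟨k, hk⟩
    by_cases hk0 : k = 0
    · subst hk0; simpa using hk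
    · exfalso
      have h1 := abs_le.1 (hm _ hk)
      rcases lt_or_gt_of_ne hk0 with h | h
      · have h3 : k * d ≤ (-1) * d := mul_le_mul_of_nonneg_right (by omega) hd0
        omega
      · have h3 : 1 * d ≤ k * d := mul_le_mul_of_nonneg_right (by omega) hd0
        omega
  · intro ht
    exact ⟨0, by simpa using ht⟩

/-! ### The system of separated configurations is disjoint from all minimal systems -/

theorem iterate_mem {Z : Type*} {R : Z → Z} {J : Set ((ℤ → Bool) × Z)}
    (hJinv : ∀ x z, (x, z) ∈ J → (sh 1 x, R z) ∈ J) (k : ℕ) :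
    ∀ x z, (x, z) ∈ J → (sh k x, R^[k] z) ∈ J := by
  induction k with
  | zero => intro x z h; simpa [sh_zero] using h
  | succ k ih =>
    intro x z h
    have h1 := hJinv _ _ (ih x z h)
    rw [sh_sh] at h1
    rw [Function.iterate_succ_apply']
    have h2 : (1 : ℤ) + k = ((k + 1 : ℕ) : ℤ) := by push_cast; ring
    rwa [h2] at h1

theorem sep_full (n : ℕ) {Z : Type*} [TopologicalSpace Z] [CompactSpace Z] [T2Space Z]
    {R : Z → Z} (hR : Continuous R) (hmin : IsMinimalSystem R) (J : Set ((ℤ → Bool) × Z))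
    (hJc : IsClosed J) (hJinv : ∀ x z, (x, z) ∈ J → (sh 1 x, R z) ∈ J)
    (hJproj : ∀ S ∈ D n, ∃ z, (S, z) ∈ J) : ∀ S ∈ D n, ∀ z, (S, z) ∈ J := by
  have hZne : Nonempty Z := by
    obtain ⟨z, -⟩ := hmin.2.1
    exact ⟨z⟩
  -- fibres over finite configurations meet every component
  have key : ∀ d : ℕ, 0 < d → ∀ Z₀ : Set Z, IsMinimalSet (R^[d]) Z₀ → ∀ j < d, ∀ S ∈ D n,
      ∃ z ∈ R^[j] '' Z₀, (S, z) ∈ J := by
    intro d hd Z₀ hZ j hj
    set A : Set (ℤ → Bool) := Prod.fst '' (J ∩ (Set.univ ×ˢ (R^[j] '' Z₀))) with hA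
    have hAc : IsClosed A := by
      refine isClosedMap_fst_of_compactSpace _ (hJc.inter ?_)
      exact isClosed_univ.prod (comp_closed hR hZ j)
    have hAmem : ∀ S, S ∈ A ↔ ∃ z ∈ R^[j] '' Z₀, (S, z) ∈ J := by
      intro S
      rw [hA]
      constructor
      · rintro ⟨⟨S', z⟩, ⟨h1, h2⟩, rfl⟩
        exact ⟨z, h2.2, h1⟩
      · rintro ⟨z, hz, h⟩
        exact ⟨(S, z), ⟨h, trivial, hz⟩, rfl⟩
    -- finite configurations
    have hfin : ∀ S ∈ D n, ∀ m : ℕ, (∀ t, S t = true → |t| ≤ m) → S ∈ A := by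
      intro S hS m hm
      have hex : ∀ M : ℕ, ∃ i : ℕ, i ≤ 2 * d ∧ (2 * m + n ≤ M →
          sh (i * ((d * M + 1 : ℕ) : ℤ)) (multi S ((d * M + 1 : ℕ) : ℤ) (2 * d)) ∈ A) := by
        intro M
        by_cases hM : 2 * m + n ≤ M
        · have hMd : M ≤ d * M := Nat.le_mul_of_pos_left M hd
          have hN : 2 * (m : ℤ) + n ≤ ((d * M + 1 : ℕ) : ℤ) := by
            have h1 : 2 * m + n ≤ d * M + 1 := by omega
            have h2 : ((2 * m + n : ℕ) : ℤ) ≤ ((d * M + 1 : ℕ) : ℤ) := by exact_mod_cast h1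
            simpa using h2
          have hmul := D_multi n m (2 * d) _ S hS hm hN
          obtain ⟨z, hz⟩ := hJproj _ hmul
          obtain ⟨a, ha, w, hw, hwz⟩ := comp_cover hR hmin hd hZ z
          refine ⟨j + d - a, by omega, fun _ => ?_⟩
          rw [hAmem]
          have h1 := iterate_mem hJinv ((j + d - a) * (d * M + 1)) _ _ hz
          have h2 : (((j + d - a) * (d * M + 1) : ℕ) : ℤ) =
              ((j + d - a : ℕ) : ℤ) * ((d * M + 1 : ℕ) : ℤ) := by push_cast; ring
          rw [h2] at h1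
          refine ⟨_, ?_, h1⟩
          rw [← hwz, ← Function.iterate_add_apply]
          have h3 : (j + d - a) * (d * M + 1) + a = j + d * (1 + (j + d - a) * M) := by
            have h4 : (j + d - a) * (d * M + 1) = d * ((j + d - a) * M) + (j + d - a) := by ring
            rw [h4, mul_add]
            omega
          rw [h3, Function.iterate_add_apply, Function.iterate_mul]
          refine ⟨_, ?_, rfl⟩
          exact hZ.2.2.1.iterate _ hw
        · exact ⟨0, by omega, fun h => absurd h hM⟩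
      choose i hi2 hi using hex
      refine hAc.mem_of_tendsto (f := fun M : ℕ =>
        sh (i M * ((d * M + 1 : ℕ) : ℤ)) (multi S ((d * M + 1 : ℕ) : ℤ) (2 * d)))
        (b := atTop) ?_ ?_
      · refine tendsto_of_eventually_apply fun t => ?_
        filter_upwards [eventually_ge_atTop (m + t.natAbs)] with M hM
        refine sh_multi_apply m (2 * d) (i M) (hi2 M) _ S hm t ?_
        have hMd : M ≤ d * M := Nat.le_mul_of_pos_left M hd
        have h5 : m + t.natAbs < d * M + 1 := by omega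
        have h6 : ((m + t.natAbs : ℕ) : ℤ) < ((d * M + 1 : ℕ) : ℤ) := by exact_mod_cast h5
        have h7 : |t| = (t.natAbs : ℤ) := Int.abs_eq_natAbs t
        rw [h7]
        simpa using h6
      · filter_upwards [eventually_ge_atTop (2 * m + n)] with M hM
        exact hi M hM
    intro S hS
    rw [← hAmem]
    refine hAc.mem_of_tendsto (tendsto_trunc S) (Eventually.of_forall fun m => ?_)
    exact hfin _ (D_trunc n m S hS) m fun t ht => (trunc_true.1 ht).2
  -- periodic configurations
  have hper : ∀ (S : ℤ → Bool) (d : ℕ), 0 < d → per S d ∈ D n → ∀ z, (per S d, z) ∈ J := by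
    intro S d hd hPD z
    obtain ⟨Z₀, hZ⟩ := exists_isMinimalSet (R^[d])
    obtain ⟨j, hj, hz⟩ := comp_cover hR hmin hd hZ z
    have h1 : R^[j] '' Z₀ ⊆ (R^[j] '' Z₀) ∩ {z | (per S d, z) ∈ J} := by
      refine comp_minimal hR hZ j _ Set.inter_subset_left ?_ ?_ ?_
      · exact (comp_closed hR hZ j).inter (hJc.preimage (by fun_prop))
      · obtain ⟨w, hw, hwJ⟩ := key d hd Z₀ hZ j hj _ hPD
        exact ⟨w, hw, hwJ⟩
      · rintro w ⟨hw, hwJ⟩
        refine ⟨?_, ?_⟩
        · obtain ⟨v, hv, rfl⟩ := hw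
          refine ⟨R^[d] v, hZ.2.2.1 hv, ?_⟩
          rw [← Function.iterate_add_apply, ← Function.iterate_add_apply, add_comm]
        · have h2 := iterate_mem hJinv d _ _ hwJ
          rw [sh_per] at h2
          exact h2
    exact (h1 hz).2
  intro S hS z
  -- finite configurations
  have hfin : ∀ m : ℕ, (trunc m S, z) ∈ J := by
    intro m
    have hDm := D_trunc n m S hS
    have hm : ∀ t, trunc m S t = true → |t| ≤ m := fun t ht => (trunc_true.1 ht).2
    have ht : Tendsto (fun d : ℕ => (per (trunc m S) d, z)) atTop (𝓝 (trunc m S, z)) := by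
      refine Tendsto.prodMk_nhds ?_ tendsto_const_nhds
      refine tendsto_of_eventually_apply fun t => ?_
      filter_upwards [eventually_gt_atTop (m + t.natAbs)] with d hd
      refine per_apply m d _ hm t ?_
      have h7 : |t| = (t.natAbs : ℤ) := Int.abs_eq_natAbs t
      rw [h7]
      exact_mod_cast hd
    refine hJc.mem_of_tendsto ht ?_
    filter_upwards [eventually_gt_atTop (2 * m + n)] with d hd
    refine hper _ d (by omega) (D_per n m d _ hDm hm ?_) z
    exact_mod_cast hd.le
  have ht : Tendsto (fun m : ℕ => (trunc m S, z)) atTop (𝓝 (S, z)) :=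
    Tendsto.prodMk_nhds (tendsto_trunc S) tendsto_const_nhds
  exact hJc.mem_of_tendsto ht (Eventually.of_forall hfin)

end Pool.Agent.Work.MP_e6b6d5_an
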