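import Pool.Agent.Work.MP_e6b6d5_an.Sep

open Topology Filter Set
open scoped Pointwise

namespace Pool.Agent.Work.MP_e6b6d5_an

/-- The configuration `F + S`. -/
noncomputable def plus (F : Finset ℤ) (S : ℤ → Bool) : ℤ → Bool := by
  classical exact fun t => decide (∃ f ∈ F, S (t - f) = true)

theorem plus_true {F : Finset ℤ} {S : ℤ → Bool} {t : ℤ} :
    plus F S t = true ↔ ∃ f ∈ F, S (t - f) = true := by
  simp [plus]

theorem plus_congr {F : Finset ℤ} {S S' : ℤ → Bool} {t : ℤ} (h : ∀ f ∈ F, S (t - f) = S' (t - f)) :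
    plus F S t = plus F S' t := by
  rw [Bool.eq_iff_iff, plus_true, plus_true]
  constructor
  · rintro ⟨f, hf, h1⟩; exact ⟨f, hf, by rw [← h f hf]; exact h1⟩
  · rintro ⟨f, hf, h1⟩; exact ⟨f, hf, by rw [h f hf]; exact h1⟩

theorem eventually_eval (x : ℤ → Bool) (t : ℤ) : ∀ᶠ y in 𝓝 x, y t = x t := by
  have h := (isOpen_eval t (x t)).mem_nhds (show x ∈ {S : ℤ → Bool | S t = x t} from rfl)
  exact h

theorem continuous_plus (F : Finset ℤ) : Continuous (plus F) := by
  rw [continuous_pi_iff]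
  intro t
  rw [continuous_iff_continuousAt]
  intro S
  refine tendsto_nhds_of_eventually_eq ?_
  have h : ∀ᶠ S' in 𝓝 S, ∀ f ∈ F, S' (t - f) = S (t - f) :=
    (Filter.eventually_all_finset F).2 fun f _ => eventually_eval S (t - f)
  filter_upwards [h] with S' hS'
  exact plus_congr hS'

theorem plus_sh (F : Finset ℤ) (k : ℤ) (S : ℤ → Bool) : plus F (sh k S) = sh k (plus F S) := by
  funext t
  rw [Bool.eq_iff_iff]
  change _ ↔ plus F S (t + k) = true
  rw [plus_true, plus_true]
  have h : ∀ f, sh k S (t - f) = S (t + k - f) := fun f => by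
    simp only [sh]; congr 1; ring
  simp_rw [h]

theorem plus_add (A F : Finset ℤ) (S : ℤ → Bool) : plus (A + F) S = plus F (plus A S) := by
  funext t
  rw [Bool.eq_iff_iff, plus_true, plus_true]
  constructor
  · rintro ⟨g, hg, hS⟩
    obtain ⟨a, ha, f, hf, rfl⟩ := Finset.mem_add.1 hg
    refine ⟨f, hf, plus_true.2 ⟨a, ha, ?_⟩⟩
    have : t - f - a = t - (a + f) := by ring
    rwa [this]
  · rintro ⟨f, hf, h⟩
    obtain ⟨a, ha, hS⟩ := plus_true.1 h
    refine ⟨a + f, Finset.add_mem_add ha hf, ?_⟩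
    have : t - (a + f) = t - f - a := by ring
    rwa [this]

/-- The configurations `F + S` with `S` `n`-separated. -/
def K (st : Finset ℤ × ℕ) : Set (ℤ → Bool) := plus st.1 '' D st.2

theorem isClosed_K (st : Finset ℤ × ℕ) : IsClosed (K st) :=
  ((isClosed_D st.2).isCompact.image (continuous_plus st.1)).isClosed

theorem K_sh (st : Finset ℤ × ℕ) (k : ℤ) (x : ℤ → Bool) (hx : x ∈ K st) : sh k x ∈ K st := by
  obtain ⟨S, hS, rfl⟩ := hx
  exact ⟨sh k S, D_sh _ k S hS, plus_sh _ _ _⟩

/-- Indicator of a finite set. -/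
def ind (A : Finset ℤ) : ℤ → Bool := fun t => decide (t ∈ A)

theorem ind_true {A : Finset ℤ} {t : ℤ} : ind A t = true ↔ t ∈ A := by simp [ind]

/-- The part of a configuration in the window `[-p, p]`. -/
noncomputable def win (p : ℕ) (C : ℤ → Bool) : Finset ℤ :=
  (Finset.Icc (-(p : ℤ)) p).filter fun t => C t = true

theorem mem_win {p : ℕ} {C : ℤ → Bool} {t : ℤ} : t ∈ win p C ↔ |t| ≤ p ∧ C t = true := by
  simp [win, abs_le]

/-- The parameter is active. -/
def Active (p : ℕ) (C : ℤ → Bool) (st : Finset ℤ × ℕ) : Prop :=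
  (win p C).Nonempty ∧ ind (win p C) ∈ D st.2

open Classical in
/-- Update of the state. -/
noncomputable def upd (p : ℕ) (C : ℤ → Bool) (st : Finset ℤ × ℕ) : Finset ℤ × ℕ :=
  if Active p C st then (win p C + st.1, st.2 + 2 * p + 1) else st

/-- The state after reading the first `p` parameters. -/
noncomputable def state (c : ℕ → ℤ → Bool) : ℕ → Finset ℤ × ℕ
  | 0 => ({0}, 1)
  | p + 1 => upd p (c p) (state c p)

theorem D_plus (n p : ℕ) (A : Finset ℤ) (hA : ∀ a ∈ A, |a| ≤ p) (hAD : ind A ∈ D n)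
    (S : ℤ → Bool) (hS : S ∈ D (n + 2 * p + 1)) : plus A S ∈ D n := by
  intro s t hs ht hst
  obtain ⟨a, ha, hsa⟩ := plus_true.1 hs
  obtain ⟨b, hb, htb⟩ := plus_true.1 ht
  have h1 := abs_le.1 (hA a ha)
  have h2 := abs_le.1 (hA b hb)
  by_cases h : s - a = t - b
  · have h3 := hAD a b (ind_true.2 ha) (ind_true.2 hb) (by omega)
    have h4 : s - t = a - b := by omega
    rwa [h4]
  · have h3 := hS _ _ hsa htb h
    push_cast at h3
    rcases le_abs.1 h3 with h4 | h4
    · rw [le_abs]; left; omega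
    · rw [le_abs]; right; omega

theorem K_upd (p : ℕ) (C : ℤ → Bool) (st : Finset ℤ × ℕ) : K (upd p C st) ⊆ K st := by
  unfold upd
  split_ifs with h
  · rintro _ ⟨S, hS, rfl⟩
    refine ⟨plus (win p C) S, ?_, ?_⟩
    · exact D_plus st.2 p _ (fun a ha => (mem_win.1 ha).1) h.2 S hS
    · exact (plus_add _ _ _).symm
  · exact subset_rfl

theorem K_antitone (c : ℕ → ℤ → Bool) : Antitone fun p => K (state c p) :=
  antitone_nat_of_succ_le fun p => K_upd p (c p) (state c p)

/-- The phase space, as a subset of a Cantor space. -/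
def XX : Set ((ℤ → Bool) × (ℕ → ℤ → Bool)) := {q | ∀ p, q.1 ∈ K (state q.2 p)}

theorem eventually_eval₂ (c : ℕ → ℤ → Bool) (p : ℕ) (t : ℤ) : ∀ᶠ c' in 𝓝 c, c' p t = c p t := by
  have hc : Continuous (fun c : ℕ → ℤ → Bool => c p t) := by fun_prop
  have := (isOpen_discrete ({c p t} : Set Bool)).preimage hc
  exact this.mem_nhds rfl

theorem eventually_win (c : ℕ → ℤ → Bool) (p : ℕ) : ∀ᶠ c' in 𝓝 c, win p (c' p) = win p (c p) := by
  have h : ∀ᶠ c' in 𝓝 c, ∀ t ∈ Finset.Icc (-(p : ℤ)) p, c' p t = c p t :=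
    (Filter.eventually_all_finset _).2 fun t _ => eventually_eval₂ c p t
  filter_upwards [h] with c' hc'
  unfold win
  refine Finset.filter_congr fun t ht => ?_
  rw [hc' t ht]

theorem upd_congr {p : ℕ} {C C' : ℤ → Bool} (h : win p C = win p C') (st : Finset ℤ × ℕ) :
    upd p C st = upd p C' st := by
  unfold upd Active
  rw [h]

theorem eventually_state (c : ℕ → ℤ → Bool) (p : ℕ) :
    ∀ᶠ c' in 𝓝 c, state c' p = state c p := by
  induction p with
  | zero => exact Eventually.of_forall fun _ => rfl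
  | succ p ih =>
    filter_upwards [ih, eventually_win c p] with c' h1 h2
    change upd p (c' p) (state c' p) = upd p (c p) (state c p)
    rw [h1]
    exact upd_congr h2 _

theorem isClosed_XX : IsClosed XX := by
  have : XX = ⋂ p, {q : (ℤ → Bool) × (ℕ → ℤ → Bool) | q.1 ∈ K (state q.2 p)} := by
    ext q; simp [XX]
  rw [this]
  refine isClosed_iInter fun p => ?_
  rw [← isOpen_compl_iff, isOpen_iff_eventually]
  intro q hq
  have h1 : ∀ᶠ q' in 𝓝 q, state q'.2 p = state q.2 p :=
    (continuous_snd.tendsto q).eventually (eventually_state q.2 p)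
  have h2 : ∀ᶠ q' in 𝓝 q, q'.1 ∉ K (state q.2 p) :=
    (continuous_fst.tendsto q).eventually ((isClosed_K _).isOpen_compl.mem_nhds hq)
  filter_upwards [h1, h2] with q' h1 h2
  change q'.1 ∉ K (state q'.2 p)
  rw [h1]
  exact h2

theorem state_congr {c c' : ℕ → ℤ → Bool} (p : ℕ) (h : ∀ i < p, c i = c' i) :
    state c p = state c' p := by
  induction p with
  | zero => rfl
  | succ p ih =>
    change upd p (c p) (state c p) = upd p (c' p) (state c' p)
    rw [ih fun i hi => h i (by omega), h p (by omega)]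

theorem state_const {c : ℕ → ℤ → Bool} (q : ℕ) (h : ∀ p, q ≤ p → c p = fun _ => false) (p : ℕ)
    (hp : q ≤ p) : state c p = state c q := by
  induction p, hp using Nat.le_induction with
  | base => rfl
  | succ p hp ih =>
    change upd p (c p) (state c p) = _
    rw [ih]
    unfold upd
    rw [if_neg]
    rintro ⟨⟨t, ht⟩, -⟩
    have := (mem_win.1 ht).2
    rw [h p hp] at this
    exact absurd this (by simp)

theorem mem_XX_of {c : ℕ → ℤ → Bool} {x : ℤ → Bool} (q : ℕ)
    (h : ∀ p, q ≤ p → c p = fun _ => false) (hx : x ∈ K (state c q)) : (x, c) ∈ XX := by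
  intro p
  rcases le_total p q with hp | hp
  · exact K_antitone c hp hx
  · change x ∈ K (state c p)
    rw [state_const q h p hp]
    exact hx

/-- Truncation of the parameter. -/
def trc (i : ℕ) (c : ℕ → ℤ → Bool) : ℕ → ℤ → Bool := fun p => if p < i then c p else fun _ => false

theorem trc_of_ge {i p : ℕ} (c : ℕ → ℤ → Bool) (h : i ≤ p) : trc i c p = fun _ => false := by
  unfold trc; rw [if_neg (by omega)]

theorem state_trc (i : ℕ) (c : ℕ → ℤ → Bool) : state (trc i c) i = state c i :=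
  state_congr i fun j hj => by unfold trc; rw [if_pos hj]

theorem tendsto_trc (c : ℕ → ℤ → Bool) : Tendsto (fun i => trc i c) atTop (𝓝 c) := by
  rw [tendsto_pi_nhds]
  intro p
  refine tendsto_nhds_of_eventually_eq ?_
  filter_upwards [eventually_gt_atTop p] with i hi
  unfold trc
  rw [if_pos hi]

theorem trc_mem {x : ℤ → Bool} {c : ℕ → ℤ → Bool} (i : ℕ) (hx : x ∈ K (state c i)) :
    (x, trc i c) ∈ XX :=
  mem_XX_of i (fun _ hp => trc_of_ge c hp) (by rw [state_trc]; exact hx)

/-- The shift on the phase space. -/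
def shH (k : ℤ) : (ℤ → Bool) ≃ₜ (ℤ → Bool) where
  toFun := sh k
  invFun := sh (-k)
  left_inv x := by rw [sh_sh]; simp [sh_zero]
  right_inv x := by rw [sh_sh]; simp [sh_zero]
  continuous_toFun := continuous_sh k
  continuous_invFun := continuous_sh (-k)

theorem XX_sh (k : ℤ) (q : (ℤ → Bool) × (ℕ → ℤ → Bool)) (hq : q ∈ XX) : (sh k q.1, q.2) ∈ XX :=
  fun p => K_sh _ k _ (hq p)

/-- The system. -/
def TT : XX ≃ₜ XX :=
  ((shH 1).prodCongr (Homeomorph.refl (ℕ → ℤ → Bool))).subtype fun q => by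
    constructor
    · intro hq
      exact XX_sh 1 q hq
    · intro hq
      have h := XX_sh (-1) _ hq
      have h2 : sh (-1) (sh 1 q.1) = q.1 := by rw [sh_sh]; simp [sh_zero]
      change (sh (-1) (sh 1 q.1), q.2) ∈ XX at h
      rw [h2] at h
      exact h

theorem TT_val (q : XX) : (TT q).1 = (sh 1 q.1.1, q.1.2) := rfl

theorem TT_iterate (k : ℕ) (q : XX) : (TT^[k] q).1 = (sh k q.1.1, q.1.2) := by
  induction k with
  | zero => simp [sh_zero]
  | succ k ih =>
    rw [Function.iterate_succ_apply', TT_val, ih, sh_sh]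
    congr 2
    push_cast
    ring

/-- The system is disjoint from all minimal systems. -/
theorem disjoint_TT : DisjointFromAllMinimal (TT : XX → XX) := by
  intro Z _ _ R hR _ hmin J hJ
  have : CompactSpace XX := isCompact_iff_compactSpace.1 isClosed_XX.isCompact
  set J' : Set (((ℤ → Bool) × (ℕ → ℤ → Bool)) × Z) :=
    Prod.map (Subtype.val : XX → _) (id : Z → Z) '' J with hJ'
  have hJ'c : IsClosed J' := by
    refine (hJ.closed.isCompact.image ?_).isClosed
    exact continuous_subtype_val.prodMap continuous_id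
  have hmem : ∀ (q : XX) (z : Z), (q, z) ∈ J ↔ (q.1, z) ∈ J' := by
    intro q z
    constructor
    · intro h; exact ⟨(q, z), h, rfl⟩
    · rintro ⟨⟨q', z'⟩, h, h2⟩
      simp only [Prod.map_apply, id_eq, Prod.mk.injEq] at h2
      obtain ⟨h3, h4⟩ := h2
      have h5 : q' = q := Subtype.ext h3
      subst h5; subst h4
      exact h
  rw [Set.eq_univ_iff_forall]
  rintro ⟨⟨⟨x, c⟩, hxc⟩, z⟩
  rw [hmem]
  have hnode : ∀ i : ℕ, ((x, trc i c), z) ∈ J' := by
    intro i
    set F := (state c i).1 with hF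
    set n := (state c i).2 with hn
    have hst : state c i = (F, n) := rfl
    let J₂ : Set ((ℤ → Bool) × Z) := {w | ((plus F w.1, trc i c), w.2) ∈ J'}
    have hJ₂c : IsClosed J₂ := by
      refine hJ'c.preimage ?_
      exact (((continuous_plus F).comp continuous_fst).prodMk continuous_const).prodMk
        continuous_snd
    have hfull := sep_full n hR hmin J₂ hJ₂c (by
      intro S w hw
      obtain ⟨⟨q', w'⟩, h, h2⟩ := hw
      simp only [Prod.map_apply, id_eq, Prod.mk.injEq] at h2
      obtain ⟨h3, h4⟩ := h2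
      subst h4
      have h5 := hJ.invariant _ h
      refine ⟨(TT q', R w'), h5, ?_⟩
      simp only [Prod.map_apply, id_eq]
      rw [TT_val, h3, plus_sh]) (by
      intro S hS
      have hq : (plus F S, trc i c) ∈ XX := trc_mem i (by rw [hst]; exact ⟨S, hS, rfl⟩)
      obtain ⟨w, hw⟩ := hJ.fst_onto ⟨_, hq⟩
      exact ⟨w, (hmem _ _).1 hw⟩)
    have hxK : x ∈ K (state c i) := hxc i
    rw [hst] at hxK
    obtain ⟨S, hS, hSx⟩ := hxK
    have := hfull S hS z
    change ((plus F S, trc i c), z) ∈ J' at this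
    have hSx' : plus F S = x := hSx
    rwa [hSx'] at this
  refine hJ'c.mem_of_tendsto (f := fun i => ((x, trc i c), z)) (b := atTop) ?_
    (Eventually.of_forall hnode)
  exact (tendsto_const_nhds.prodMk_nhds (tendsto_trc c)).prodMk_nhds tendsto_const_nhds

end Pool.Agent.Work.MP_e6b6d5_an
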